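import Pool.Agent.MP_db5b97_nt.H31.SpecA
import Pool.Agent.MP_db5b97_nt.H57.E1
import Pool.Agent.MP_db5b97_nt.H54.E

/-! Inactive large primes do not divide the period. -/

namespace Pool.Agent.MP_db5b97_nt.H84

open H85 H31 H54 H57.E1 Polynomial Module TensorProduct

namespace Es

variable {G X : Type} [Group G] [Fintype G] [Fintype X] [MulAction G X] {σ : G} {p : ℕ}

omit [Fintype G] [Fintype X] in
theorem co (g : G) (v : ℚ ⊗[ℤ] (X →₀ ℤ)) (x : X) :
    (Finsupp.basisSingleOne.baseChange ℚ).repr (bc ℚ (pr G X) g v) x =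
      (Finsupp.basisSingleOne.baseChange ℚ).repr v (g⁻¹ • x) := by
  induction v with
  | zero => simp
  | add a b ha hb => simp only [map_add, Finsupp.add_apply, ha, hb]
  | tmul c m =>
    rw [show bc ℚ (pr G X) g (c ⊗ₜ m) = c ⊗ₜ Finsupp.mapDomain (g • ·) m from rfl,
      Basis.baseChange_repr_tmul, Basis.baseChange_repr_tmul]
    congr 1
    have := Finsupp.mapDomain_apply (MulAction.injective g) m (g⁻¹ • x)
    rwa [smul_inv_smul] at this

theorem ac_qa (h : Ac (bc ℚ (pr G X)) σ p) : QA G X σ p := by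
  obtain ⟨-, -, q, hq, v, hv, e⟩ := h
  set w : X → ℚ := fun x => (Finsupp.basisSingleOne.baseChange ℚ).repr v x with hw
  have h1 : ∀ x, ∑ g : G, ∑ i ∈ Finset.range p, w (g • (σ ^ i)⁻¹ • g⁻¹ • x) = q * w x := fun x => by
    have := congrArg (fun t => (Finsupp.basisSingleOne.baseChange ℚ).repr t x) e
    simp only [zz, nn, LinearMap.sum_apply, End.mul_apply, map_sum, Finsupp.finsetSum_apply, co,
      inv_inv, map_smul, Finsupp.smul_apply, smul_eq_mul] at this
    exact this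
  have h2 : 0 < ∑ x, w x ^ 2 := by
    obtain ⟨x, hx⟩ : ∃ x, w x ≠ 0 := by
      by_contra hc
      push Not at hc
      exact hv ((Finsupp.basisSingleOne.baseChange ℚ).repr.map_eq_zero_iff.1 (Finsupp.ext hc))
    exact Finset.sum_pos' (fun _ _ => sq_nonneg _) ⟨x, Finset.mem_univ _, by positivity⟩
  refine ⟨w, lt_of_eq_of_lt ?_ (mul_lt_mul_of_pos_right hq h2)⟩
  calc ∑ g : G, ∑ i ∈ Finset.range p, ∑ x, w (g • x) * w (g • σ ^ i • x)
      = ∑ g : G, ∑ i ∈ Finset.range p, ∑ x, w (g • (σ ^ i)⁻¹ • g⁻¹ • x) * w x := by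
        refine Finset.sum_congr rfl fun g _ => Finset.sum_congr rfl fun i _ => ?_
        rw [← Equiv.sum_comp (MulAction.toPerm (g * σ ^ i))
          fun x => w (g • (σ ^ i)⁻¹ • g⁻¹ • x) * w x]
        simp only [MulAction.toPerm_apply, mul_smul, inv_smul_smul]
    _ = ∑ x, (∑ g : G, ∑ i ∈ Finset.range p, w (g • (σ ^ i)⁻¹ • g⁻¹ • x)) * w x := by
        simp only [Finset.sum_mul]
        rw [Finset.sum_comm (s := (Finset.univ : Finset X))]
        exact Finset.sum_congr rfl fun g _ => Finset.sum_comm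
    _ = q * ∑ x, w x ^ 2 := by
        rw [Finset.mul_sum]
        exact Finset.sum_congr rfl fun x _ => by rw [h1]; ring

theorem odd (hH : RowHQ) (hp : p.Prime) (nA : ¬Ac (bc ℚ (pr G X)) σ p) (h : ∀ a : X, σ ^ p • a = a)
    (P : Subgroup G) (hi : P.index.Coprime p)
    (hP : ∀ g ∈ P, ∀ v : X →₀ ℤ, g • Nm σ p v = Nm σ p v ∧ Nm σ p (g • v) = Nm σ p v)
    (M : AddSubgroup (X →₀ ℤ)) (hM : Stab (⊤ : Subgroup G) M) :
    ∀ m ∈ M, Nm σ p m = 0 → ∃ m' ∈ M, m = σ • m' - m' := by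
  classical
  intro m hm h0
  have : Fact p.Prime := ⟨hp⟩
  have h1 : pr G X (σ ^ p) = 1 := LinearMap.ext fun v =>
    show Finsupp.mapDomain _ v = v by rw [show (σ ^ p • ·) = id from funext h, Finsupp.mapDomain_id]
  have eN : ∀ v, Nm σ p v = nn (pr G X) σ p v := fun v => by
    rw [Nm_apply, nn, LinearMap.sum_apply]; rfl
  have hW : ∀ g, M.toIntSubmodule ≤ M.toIntSubmodule.comap (pr G X g) := fun g v hv =>
    hM g trivial v hv
  have iN := nn_int (σ := σ) (p := p) (ρ := pr G X) (ρ' := (pr G X).subrepresentation _ hW)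
    (Submodule.subtype _) fun _ _ => rfl
  simp only [eN] at hP h0
  obtain ⟨m', e⟩ := lat0 (σ := σ) hH hi (f := (zz (pr G X) σ p).charpoly) (fun w hw => by
      obtain ⟨q, rfl⟩ := eig_rat (bc_one (S := AlgebraicClosure ℚ_[p]) h1) (w := w) (by
        rwa [End.hasEigenvalue_iff_isRoot_charpoly, zz_bc, LinearMap.charpoly_baseChange, IsRoot,
          eval_map_algebraMap])
      refine ⟨q, not_lt.1 fun hq => nA ⟨hp, bc_one h1, q, hq, ?_⟩, rfl⟩
      obtain ⟨v, hv⟩ := End.HasEigenvalue.exists_hasEigenvector (f := zz (bc ℚ (pr G X)) σ p)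
        (μ := q) (by
          rw [End.hasEigenvalue_iff_isRoot_charpoly, zz_bc, LinearMap.charpoly_baseChange, IsRoot,
            eval_map_algebraMap]
          exact (aeval_algebraMap_eq_zero_iff _ q _).1 hw)
      exact ⟨v, hv.2, hv.apply_eq_smul⟩)
    ((pr G X).subrepresentation _ hW) (sub_one hW h1)
    (fun g hg u => ⟨Subtype.ext ((congrArg (pr G X g) (iN u)).trans
      ((hP g hg u).1.trans (iN u).symm)), Subtype.ext ((iN _).trans ((hP g hg u).2.trans (iN u).symm))⟩)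
    (LinearMap.ext fun u => Subtype.ext ((aeval_int (Submodule.subtype _)
      (zz_int _ fun _ _ => rfl) _ u).trans (by rw [LinearMap.aeval_self_charpoly]; rfl)))
    ⟨m, hm⟩ (Subtype.ext ((iN _).trans h0))
  exact ⟨m', m'.2, congrArg Subtype.val e⟩

end Es

theorem rowEs : RowHQ → RowEs := by
  intro h1 G X _ _ _ _
  have hex : ∀ p : ℕ, ∃ (P : Subgroup G) (x : G), p.Prime → Fintype.card X < p ^ 2 →
      P.index.Coprime p ∧ x ∈ P ∧ (∀ a : X, x ^ p • a = a) ∧
        ∀ g ∈ P, ∀ a : X, ∃ i : ℕ, ∀ h ∈ P, g • h • a = x ^ i • h • a := by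
    intro p
    by_cases hp : p.Prime ∧ Fintype.card X < p ^ 2
    · have := Fact.mk hp.1
      obtain ⟨P⟩ : Nonempty (Sylow p G) := inferInstance
      obtain ⟨x, hx, hx'⟩ := e_elt (X := X) P.isPGroup' hp.2
      refine ⟨P, x, fun _ _ => ⟨?_, x.2, hx, fun g hg a => ?_⟩⟩
      · exact ((Nat.Prime.coprime_iff_not_dvd hp.1).2 P.not_dvd_index).symm
      · obtain ⟨i, hi⟩ := hx' ⟨g, hg⟩ a
        exact ⟨i, fun h hh => hi ⟨h, hh⟩⟩
    · exact ⟨⊤, 1, fun a b => absurd ⟨a, b⟩ hp⟩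
  choose P x hPx using hex
  refine ⟨x, fun p hp hX => ⟨(hPx p hp hX).2.2.1, fun hpA A _ _ hA M hM => ?_⟩⟩
  obtain ⟨hc, hxP, hx, hH⟩ := hPx p hp hX
  have := Fact.mk hp
  have hxv : ∀ v : X →₀ ℤ, x p ^ p • v = v := fun v => Finsupp.ext fun a => by
    rw [Finsupp.comapSMul_apply, inv_smul_eq_iff.2 (hx a).symm]
  have he : ∀ (g : G) (v : X →₀ ℤ) a, Finsupp.coeFnAddHom (g • v) a =
      Finsupp.coeFnAddHom v (g⁻¹ • a) := fun g v a => Finsupp.comapSMul_apply g v a
  have h3 := Es.odd h1 hp (fun h => hpA (Es.ac_qa h)) hx (P p) hc (fun g hg v => ⟨e_fix _ he hH hxP DFunLike.coe_injective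
    (sub_eq_zero.1 (by rw [e_tel, hxv, sub_self])) hg,
    e_nm _ he hH hxP DFunLike.coe_injective hxv v hg⟩) M hM
  let _ : DistribMulAction G M :=
    { smul := fun g m => ⟨g • m.1, hM g trivial _ m.2⟩
      one_smul := fun m => Subtype.ext (one_smul G m.1)
      mul_smul := fun s t m => Subtype.ext (mul_smul s t m.1)
      smul_zero := fun g => Subtype.ext (smul_zero g)
      smul_add := fun g a b => Subtype.ext (smul_add g a.1 b.1) }
  have hco : ∀ (g : G) (m : M), ((g • m : M) : X →₀ ℤ) = g • (m : X →₀ ℤ) := fun _ _ => rfl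
  let e : M →+ (X → ℤ) := Finsupp.coeFnAddHom.comp M.subtype
  have hi : Function.Injective e := DFunLike.coe_injective.comp Subtype.val_injective
  have he' : ∀ (g : G) m a, e (g • m) a = e m (g⁻¹ • a) := fun g m a => he g m a
  have hxM : ∀ m : M, x p ^ p • m = m := fun m => Subtype.ext (hxv m)
  have hker : ∀ m : M, Nm (x p) p m = 0 → ∃ m', m = x p • m' - m' := fun m hm => by
    obtain ⟨m', a, b⟩ := h3 m m.2 (by
      simpa [Nm_apply, hco] using congrArg Subtype.val hm)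
    exact ⟨⟨m', a⟩, Subtype.ext b⟩
  have : Module.Finite ℤ M := Module.Finite.of_injective M.subtype.toIntLinearMap
    Subtype.val_injective
  obtain ⟨t, ht, hk⟩ := e_perm (A := A) (M := M) (P p) (x p)
    (fun m hm => (smul_eq_zero_iff_right hp.ne_zero).1 hm) hxP hxM
    (fun m hm g hg => e_fix e he' hH hxP hi hm hg) hker
    (e_pure e he' hH hxP hp hi hxM hker) hA
  have hk' : Kill A (P p) M (t * 1) := hk.retract (extH (AddMonoidHom.id M)) Subtype.val
    (extH_addOn _) (fun _ _ _ _ => rfl) (fun _ _ => AddSubgroup.mem_top _) (fun z _ => z.2)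
    (fun s _ y hy => by
      rw [extH_apply _ hy, extH_apply _ (hM s trivial y hy)]
      rfl) (fun _ _ _ _ => rfl) fun y hy => by
      rw [extH_apply _ hy, one_smul]
      rfl
  refine ⟨_, ?_, hk'.cores le_top ?_ hM⟩
  · rw [Subgroup.relIndex_top_right, mul_one]
    exact Nat.Coprime.mul_left hc ht
  · rw [Subgroup.relIndex_top_right]
    exact Subgroup.index_ne_zero_of_finite

end Pool.Agent.MP_db5b97_nt.H84
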